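import Pool.Agent.H.MP_4a2ece_lc.C

open Pool.Agent.H.MP_4a2ece_lc

namespace Pool.Agent.Results.MP_4a2ece_lc.Complete

theorem result : Sharp C :=
  ⟨by have := sc; exact TopologicalSpace.exists_dense_seq C,
    fun α hα => ⟨ana hα, fun _ _ _ hY _ hB => hard α hY hB⟩⟩

end Pool.Agent.Results.MP_4a2ece_lc.Complete
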